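import Pool.Agent.KS6_94.CP.F

/-!
# `C_p(X, K)` can be Lindelöf exactly for the targets `K` with at most `n` points

In ZFC, for every `n ≥ 1` there is a zero-dimensional Tychonoff space `X` such that, for every `T₁`
space `K`, the space `C_p(X, K)` is Lindelöf if and only if `K` has at most `n` points; if `K` has
more than `n` points, it is neither normal nor metacompact nor subparacompact.  So there are spaces
`X` for which exactly the first `m` powers of `C_p(X, {0,1})` are Lindelöf (`m` any given number; the
question is about `m = 1`), and there is a space for which all finite powers of `C_p(X, {0,1})` are
Lindelöf, but `C_p(X, ℕ)` is not.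

Idea.  Let `J` be a countable set, the set of values, `Q` the countable set of the locally constant
functions from the Cantor set `C` to `J`.  The space `X` is `Q` with the topology of pointwise
convergence together with isolated points `(t, n)`, `t ∈ C`, that are attached in such a way that
the evaluations at the points of `C` are continuous on `X`; they are a closed discrete set in
`C_p(X, J)`.  The points `(t, n)` converge to `σ_t ∈ Q` at all points of `C` other than `t` and are
tied, for other functions, to approximations of `σ_t` which have another value `j_t` at `t`.  If a
continuous function `g` on `Q` takes fewer values than `J` has elements then, by the pigeonhole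
principle, for each `t` there are `σ_t` and `j_t ≠ σ_t(t)` for which `g` does not notice the change of
the value at `t`.  A recursion of length continuum makes these choices good for enough continuous
functions to get the Lindelöf property for all targets that are smaller than `J`, and diverse
enough to make `C_p(X, J)` bad.  For `J` with three elements (two values in the target) this is the
example of the earlier run.

Definitions (`Pool/Agent/KS6_94/CP/E.lean`): `Cp X K` is the space of the continuous maps from `X` to
`K` with the topology of pointwise convergence; `Metacompact`: every open cover has a point-finite
open refinement; `Subparacompact`: every open cover has a σ-discrete closed refinement; `Four P q`: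
each of the four properties Lindelöf, normal, metacompact, subparacompact of `P` holds if and only
if `q`.
-/

set_option autoImplicit false

namespace Pool.Agent.Results.MP_ad67b9_gt.AtMostNValues

open TopologicalSpace Cardinal Pool.Agent.KS6_94.CP

universe u v

/-- (1) For every `n ≥ 1` there is a zero-dimensional Tychonoff space `X` such that, for every `T₁`
space `K`, each of the properties Lindelöf, normal, metacompact, subparacompact holds for `C_p(X, K)`
if and only if `K` has at most `n` points, and for a power `C_p(X, K)^I` if and only if `K^I` has at
most `n` points.
(2) For every `m` there is a zero-dimensional Tychonoff space `X` such that each of these properties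
holds for `C_p(X, {0,1})^I` if and only if `I` has at most `m` elements.
(3) There is a zero-dimensional Tychonoff space `X` such that, for every discrete space `K`, each of
these properties holds for `C_p(X, K)`, and for every power `C_p(X, K)^I` with `I` finite and
nonempty, if and only if `K` is finite. -/
theorem result :
    (∀ n : ℕ, 1 ≤ n → ∃ (X : Type) (_ : TopologicalSpace X), T35Space X ∧
      IsTopologicalBasis {U : Set X | IsClopen U} ∧
      (∀ (K : Type u) [TopologicalSpace K] [T1Space K], Four (Cp X K) (#K ≤ n)) ∧
      ∀ (K : Type u) [TopologicalSpace K] [T1Space K] (I : Type v),
        Four (I → Cp X K) (#(I → K) ≤ n)) ∧
    (∀ m : ℕ, ∃ (X : Type) (_ : TopologicalSpace X), T35Space X ∧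
      IsTopologicalBasis {U : Set X | IsClopen U} ∧
      ∀ I : Type v, Four (I → Cp X Bool) (#I ≤ m)) ∧
    ∃ (X : Type) (_ : TopologicalSpace X), T35Space X ∧
      IsTopologicalBasis {U : Set X | IsClopen U} ∧
      (∀ (K : Type u) [TopologicalSpace K] [DiscreteTopology K], Four (Cp X K) (Finite K)) ∧
      ∀ (K : Type u) [TopologicalSpace K] [DiscreteTopology K] (I : Type v) [Finite I] [Nonempty I],
        Four (I → Cp X K) (Finite K) :=
  main

end Pool.Agent.Results.MP_ad67b9_gt.AtMostNValues
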